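import Pool.Agent.R974.AT.Defs

/-!
# MP_097655_pr, piece KEY: the measure of the span set grows by `o(δ)` in probability
-/

set_option autoImplicit false

open MeasureTheory ProbabilityTheory Filter Topology Set
open scoped ENNReal NNReal

universe u

noncomputable section

namespace R396.ATKEY

open R974.AT
open Pool.Agent.R974.Span (GBM dq mx dense_dq eval_noatom)

lemma isClosed_Sp {w : ℝ≥0 → ℝ} (hw : Continuous w) (t : ℝ≥0) : IsClosed (Sp w t) := by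
  have h1 : Sp w t = (fun q : ℝ≥0 × ℝ≥0 => (q.2 : ℝ) - q.1) ''
      ({q | q.1 ≤ q.2 ∧ q.2 ≤ t} ∩ {q | w q.1 = w q.2}) := by
    ext u
    constructor
    · rintro ⟨s, t, h1, h2, h3, rfl⟩
      exact ⟨(s, t), ⟨⟨h1, h2⟩, h3⟩, rfl⟩
    · rintro ⟨⟨s, t⟩, ⟨⟨h1, h2⟩, h3⟩, rfl⟩
      exact ⟨s, t, h1, h2, h3, rfl⟩
  have h0 : IsCompact {q : ℝ≥0 × ℝ≥0 | q.1 ≤ q.2 ∧ q.2 ≤ t} := by
    have h1 : IsCompact (Icc (0:ℝ≥0) t ×ˢ Icc (0:ℝ≥0) t) := isCompact_Icc.prod isCompact_Icc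
    refine h1.of_isClosed_subset ?_ ?_
    · have h2 : IsClosed {q : ℝ≥0 × ℝ≥0 | q.1 ≤ q.2} := isClosed_le continuous_fst continuous_snd
      have h3 : IsClosed {q : ℝ≥0 × ℝ≥0 | q.2 ≤ t} := isClosed_le continuous_snd continuous_const
      exact h2.inter h3
    · rintro q ⟨ha, hb⟩
      exact ⟨⟨zero_le, ha.trans hb⟩, ⟨zero_le, hb⟩⟩
  rw [h1]
  apply IsCompact.isClosed
  apply IsCompact.image
  · exact h0.inter_right (isClosed_eq (hw.comp continuous_fst) (hw.comp continuous_snd))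
  · fun_prop

lemma Sp_subset (w : ℝ≥0 → ℝ) (t : ℝ≥0) : Sp w t ⊆ Icc 0 (t : ℝ) := by
  rintro _ ⟨s, u, h1, h2, _, rfl⟩
  have h1' : (s : ℝ) ≤ u := by exact_mod_cast h1
  have h2' : (u : ℝ) ≤ t := by exact_mod_cast h2
  have h3 : (0:ℝ) ≤ s := s.2
  constructor <;> linarith

lemma Sp_mono (w : ℝ≥0 → ℝ) {t t' : ℝ≥0} (h : t ≤ t') : Sp w t ⊆ Sp w t' := by
  rintro _ ⟨s, u, h1, h2, h3, rfl⟩
  exact ⟨s, u, h1, h2.trans h, h3, rfl⟩

lemma volume_Sp_ne_top (w : ℝ≥0 → ℝ) (t : ℝ≥0) : volume (Sp w t) ≠ ∞ :=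
  ((measure_mono (Sp_subset w t)).trans_lt (by rw [Real.volume_Icc]; exact ENNReal.ofReal_lt_top)).ne

lemma eventually_small {Ω : Type u} [MeasurableSpace Ω] {P : Measure Ω} [IsFiniteMeasure P]
    (A : ℕ → Set Ω) (hA : ∀ n, MeasurableSet (A n)) (h : ∀ᵐ ω ∂P, ∀ᶠ n in atTop, ω ∉ A n)
    {θ : ℝ≥0∞} (hθ : 0 < θ) : ∀ᶠ n in atTop, P (A n) < θ := by
  have h1 := tendsto_measure_of_ae_tendsto_indicator_of_isFiniteMeasure (μ := P) atTop (A := (∅ : Set Ω)) (As := A)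
    MeasurableSet.empty hA (by
      filter_upwards [h] with ω hω
      filter_upwards [hω] with n hn
      simp [hn])
  rw [measure_empty] at h1
  exact h1.eventually (gt_mem_nhds hθ)

lemma dense_le {w : ℝ≥0 → ℝ} (hw : Continuous w) {g : ℝ≥0 → ℝ≥0} (hg : Continuous g) {c b : ℝ}
    (h : ∀ i, |w (g (dq i)) - b| ≤ c) (s : ℝ≥0) : |w (g s) - b| ≤ c := by
  have h3 : IsClosed {z | |w (g z) - b| ≤ c} := isClosed_le (by fun_prop) continuous_const
  have h4 : range dq ⊆ {z | |w (g z) - b| ≤ c} := by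
    rintro _ ⟨n, rfl⟩
    exact h n
  have h5 := closure_minimal h4 h3
  rw [dense_dq.closure_range] at h5
  exact h5 (mem_univ s)

/-- constant sign before time `1` -/
lemma const_sign {w : ℝ≥0 → ℝ} (hw : Continuous w) {h : ℝ≥0} (hh : h ≤ 1)
    (hn : (h : ℝ) ∉ Sp w 1) :
    (∀ s, s + h ≤ 1 → w s < w (s + h)) ∨ (∀ s, s + h ≤ 1 → w (s + h) < w s) := by
  have hne : ∀ s, s + h ≤ 1 → w (s + h) - w s ≠ 0 := by
    intro s hs heq
    apply hn
    refine ⟨s, s + h, le_self_add, hs, by linarith, ?_⟩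
    push_cast; ring
  have hc : Continuous (fun s => w (s + h) - w s) := by fun_prop
  by_contra hcon
  push Not at hcon
  obtain ⟨⟨s1, hs1, h1⟩, ⟨s2, hs2, h2⟩⟩ := hcon
  -- sign change
  have hpre : IsPreconnected (Icc (0:ℝ≥0) (1 - h)) := isPreconnected_Icc
  have hm1 : s1 ∈ Icc (0:ℝ≥0) (1 - h) := ⟨zero_le, le_tsub_of_add_le_right hs1⟩
  have hm2 : s2 ∈ Icc (0:ℝ≥0) (1 - h) := ⟨zero_le, le_tsub_of_add_le_right hs2⟩
  have h3 := hpre.intermediate_value hm1 hm2 hc.continuousOn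
  have h4 : (0:ℝ) ∈ Icc (w (s1 + h) - w s1) (w (s2 + h) - w s2) := ⟨by linarith, by linarith⟩
  obtain ⟨s, hs, hs0⟩ := h3 h4
  refine hne s ?_ hs0
  calc s + h ≤ (1 - h) + h := by gcongr; exact hs.2
    _ = 1 := tsub_add_cancel_of_le hh


/-- the scales -/
def ee (n : ℕ) : ℝ≥0 := 1 / (n + 5)

lemma ee_coe (n : ℕ) : (ee n : ℝ) = 1 / ((n:ℝ) + 5) := by unfold ee; push_cast; rfl

lemma ee_pos (n : ℕ) : 0 < ee n := by unfold ee; positivity

lemma ee_lt (n : ℕ) : (ee n : ℝ) < 1 / 4 := by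
  rw [ee_coe, div_lt_div_iff₀ (by positivity) (by norm_num)]
  have : (0:ℝ) ≤ n := Nat.cast_nonneg n
  linarith

lemma ee_tendsto : Tendsto (fun n => (ee n : ℝ)) atTop (𝓝 0) := by
  simp only [ee_coe]
  have h1 : Tendsto (fun n : ℕ => (n:ℝ) + 5) atTop atTop :=
    tendsto_atTop_add_const_right _ _ tendsto_natCast_atTop_atTop
  refine h1.inv_tendsto_atTop.congr fun n => ?_
  simp [one_div]

section
variable {Ω : Type u} [MeasurableSpace Ω] {P : Measure Ω} {B : ℝ≥0 → Ω → ℝ}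

/-- a small difference is not a span -/
def bad1 (B : ℝ≥0 → Ω → ℝ) (ε : ℝ≥0) : Set Ω :=
  ⋃ q : ℚ, {ω | (0 ≤ (q:ℝ) ∧ (q:ℝ) ≤ ε) ∧ (q:ℝ) ∉ Sp (fun t => B t ω) 1}

/-- the values close to time `1` are not separated from the values close to time `0` -/
def bad2 (B : ℝ≥0 → Ω → ℝ) (ε : ℝ≥0) : Set Ω :=
  ({ω | B 1 ω = 0} ∪ (⋃ i, {ω | |B 1 ω| / 3 < |B (min (dq i) (2 * ε)) ω - 0|})) ∪
    ⋃ i, {ω | |B 1 ω| / 3 < |B (max (1 - ε) (min (dq i) (1 + ε))) ω - B 1 ω|}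

lemma measurable_section (h3 : S_MJOINT.{u}) (hB : GBM B P) (t : ℝ≥0) (h : ℝ) :
    MeasurableSet {ω | h ∈ Sp (fun s => B s ω) t} :=
  (h3 B hB.meas hB.cont t).preimage (measurable_prodMk_left (x := h))

lemma measurable_bad1 (h3 : S_MJOINT.{u}) (hB : GBM B P) (ε : ℝ≥0) :
    MeasurableSet (bad1 B ε) := by
  refine MeasurableSet.iUnion fun q => ?_
  exact (MeasurableSet.const _).inter (measurable_section h3 hB 1 q).compl

lemma measurable_bad2 (hB : GBM B P) (ε : ℝ≥0) : MeasurableSet (bad2 B ε) := by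
  have hm := hB.meas
  refine ((measurableSet_eq_fun (hm 1) measurable_const).union
    (MeasurableSet.iUnion fun i => ?_)).union (MeasurableSet.iUnion fun i => ?_)
  · exact measurableSet_lt (((hm 1).abs).div_const 3) (((hm _).sub_const 0).abs)
  · exact measurableSet_lt (((hm 1).abs).div_const 3) (((hm _).sub (hm 1)).abs)

lemma exists_eps (h3 : S_MJOINT.{u}) (h4 : S_OSCL.{u}) (h5 : S_RDET) (hB : GBM B P) {θ : ℝ≥0∞}
    (hθ : 0 < θ) : ∃ ε : ℝ≥0, 0 < ε ∧ (ε:ℝ) < 1 / 4 ∧ ∃ E : Set Ω, P E < θ ∧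
      ∀ ω, ω ∉ E → ∀ r : ℝ≥0, r ≤ 1 + ε → ∀ h ∈ Sp (fun t => B t ω) r,
      h ∉ Sp (fun t => B t ω) 1 → (ε:ℝ) ≤ h ∧ h ≤ 1 - ε := by
  have := hB.prob
  have hae : ∀ᵐ ω ∂P, ∀ᶠ n in atTop, ω ∉ bad1 B (ee n) ∪ bad2 B (ee n) := by
    have h0 : ∀ᵐ ω ∂P, B 1 ω ≠ 0 := by
      rw [ae_iff]
      simpa using eval_noatom hB (c := 1) one_pos 0
    filter_upwards [h4 P B hB, h0] with ω hosc h10
    obtain ⟨hR, _, hR2⟩ := h5 (fun t => B t ω) (hB.cont ω) hosc
    have hpos : 0 < |B 1 ω| / 3 := by have := abs_pos.2 h10; linarith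
    obtain ⟨δ1, hδ1, hc1⟩ := Metric.continuous_iff.1 (hB.cont ω) 0 _ hpos
    obtain ⟨δ2, hδ2, hc2⟩ := Metric.continuous_iff.1 (hB.cont ω) 1 _ hpos
    have e1 : ∀ᶠ n in atTop, (ee n : ℝ) < RR (fun t => B t ω) 1 :=
      ee_tendsto.eventually (gt_mem_nhds hR)
    have e2 : ∀ᶠ n in atTop, (ee n : ℝ) < δ1 / 2 :=
      ee_tendsto.eventually (gt_mem_nhds (by linarith))
    have e3 : ∀ᶠ n in atTop, (ee n : ℝ) < δ2 := ee_tendsto.eventually (gt_mem_nhds hδ2)
    filter_upwards [e1, e2, e3] with n g1 g2 g3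
    rintro (hb | ((hb | hb) | hb))
    · obtain ⟨q, ⟨hq0, hq1⟩, hq⟩ := mem_iUnion.1 hb
      exact hq (hR2 q hq0 (by linarith))
    · exact h10 hb
    · obtain ⟨i, hi⟩ := mem_iUnion.1 hb
      have hi' : |B 1 ω| / 3 < |B (min (dq i) (2 * ee n)) ω - 0| := hi
      have h6 : dist (min (dq i) (2 * ee n)) 0 < δ1 := by
        rw [NNReal.dist_eq, NNReal.coe_zero, sub_zero, abs_of_nonneg (NNReal.coe_nonneg _)]
        have : ((min (dq i) (2 * ee n) : ℝ≥0) : ℝ) ≤ ((2 * ee n : ℝ≥0) : ℝ) := by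
          exact_mod_cast min_le_right _ _
        push_cast at this ⊢
        linarith
      have h7 := hc1 _ h6
      rw [Real.dist_eq, hB.zero] at h7
      linarith
    · obtain ⟨i, hi⟩ := mem_iUnion.1 hb
      have hi' : |B 1 ω| / 3 < |B (max (1 - ee n) (min (dq i) (1 + ee n))) ω - B 1 ω| := hi
      have hle1 : ee n ≤ 1 := by
        have := ee_lt n
        have h8 : (ee n : ℝ) ≤ 1 := by linarith
        exact_mod_cast h8
      have h6 : dist (max (1 - ee n) (min (dq i) (1 + ee n))) 1 < δ2 := by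
        have ha : ((1 - ee n : ℝ≥0) : ℝ) ≤ ((max (1 - ee n) (min (dq i) (1 + ee n)) : ℝ≥0) : ℝ) :=
          NNReal.coe_le_coe.2 (le_max_left _ _)
        have hb : ((max (1 - ee n) (min (dq i) (1 + ee n)) : ℝ≥0) : ℝ) ≤ ((1 + ee n : ℝ≥0) : ℝ) :=
          NNReal.coe_le_coe.2 (max_le (tsub_le_self.trans le_self_add) (min_le_right _ _))
        rw [NNReal.coe_sub hle1] at ha
        rw [NNReal.coe_add] at hb
        rw [NNReal.dist_eq, abs_lt]
        rw [NNReal.coe_one] at *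
        constructor <;> linarith
      have h7 := hc2 _ h6
      rw [Real.dist_eq] at h7
      linarith
  have hsm := eventually_small (P := P) (fun n => bad1 B (ee n) ∪ bad2 B (ee n))
    (fun n => (measurable_bad1 h3 hB _).union (measurable_bad2 hB _)) hae hθ
  obtain ⟨n, hn⟩ := hsm.exists
  refine ⟨ee n, ee_pos n, ee_lt n, _, hn, ?_⟩
  set ε := ee n with hε
  have hε0 : 0 < ε := ee_pos n
  have hε1 : (ε:ℝ) < 1 / 4 := ee_lt n
  have hε0' : (0:ℝ) < ε := by exact_mod_cast hε0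
  intro ω hω r hr h hh hh1
  have hcont := hB.cont ω
  have hω1 : ω ∉ bad1 B ε := fun hx => hω (Or.inl hx)
  have hω2 : ω ∉ bad2 B ε := fun hx => hω (Or.inr hx)
  have hcl := isClosed_Sp hcont 1
  have hsmall : Icc (0:ℝ) ε ⊆ Sp (fun t => B t ω) 1 := by
    rw [← closure_Ioo hε0'.ne]
    refine closure_minimal ?_ hcl
    refine (Rat.isDenseEmbedding_coe_real.dense.open_subset_closure_inter isOpen_Ioo).trans
      (closure_minimal ?_ hcl)
    rintro _ ⟨⟨hx0, hx1⟩, ⟨q, rfl⟩⟩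
    by_contra hq
    exact hω1 (mem_iUnion.2 ⟨q, ⟨hx0.le, hx1.le⟩, hq⟩)
  obtain ⟨s, u, hsu, hur, hw, rfl⟩ := hh
  have hsu' : (s:ℝ) ≤ u := by exact_mod_cast hsu
  have hur' : (u:ℝ) ≤ 1 + ε := by exact_mod_cast hur.trans hr
  constructor
  · by_contra hcon
    push Not at hcon
    exact hh1 (hsmall ⟨by linarith, hcon.le⟩)
  · by_contra hcon
    push Not at hcon
    have h10 : B 1 ω ≠ 0 := fun hx => hω2 (Or.inl (Or.inl hx))
    have hA : ∀ i, |B (min (dq i) (2 * ε)) ω - 0| ≤ |B 1 ω| / 3 := by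
      intro i
      by_contra hx
      push Not at hx
      exact hω2 (Or.inl (Or.inr (mem_iUnion.2 ⟨i, hx⟩)))
    have hC : ∀ i, |B (max (1 - ε) (min (dq i) (1 + ε))) ω - B 1 ω| ≤ |B 1 ω| / 3 := by
      intro i
      by_contra hx
      push Not at hx
      exact hω2 (Or.inr (mem_iUnion.2 ⟨i, hx⟩))
    have hA' := dense_le hcont (g := fun s => min s (2 * ε)) (by fun_prop) hA s
    have hC' := dense_le hcont (g := fun s => max (1 - ε) (min s (1 + ε))) (by fun_prop) hC u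
    have hs0 : (0:ℝ) ≤ s := s.2
    have hle1 : ε ≤ 1 := by
      have h8 : (ε : ℝ) ≤ 1 := by linarith
      exact_mod_cast h8
    have hms : min s (2 * ε) = s := by
      apply min_eq_left
      have : (s:ℝ) ≤ 2 * ε := by linarith
      exact_mod_cast this
    have hmu : max (1 - ε) (min u (1 + ε)) = u := by
      rw [min_eq_left (hur.trans hr)]
      apply max_eq_right
      rw [← NNReal.coe_le_coe, NNReal.coe_sub hle1, NNReal.coe_one]
      linarith
    simp only [hms] at hA'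
    simp only [hmu] at hC'
    have hw' : B s ω = B u ω := hw
    rw [hw', abs_le] at hA'
    rw [abs_le] at hC'
    have hp := abs_pos.2 h10
    rcases abs_cases (B 1 ω) with ⟨h7, _⟩ | ⟨h7, _⟩ <;> rw [h7] at hA' hC' hp <;>
      linarith [hA'.1, hA'.2, hC'.1, hC'.2]

/-- the event of `S_CORE` -/
def cev (B : ℝ≥0 → Ω → ℝ) (h δ a : ℝ≥0) (x : ℝ) : Set Ω :=
  {ω | (∀ s, s + h ≤ 1 → B s ω < B (s + h) ω) ∧
        (∃ s, s + h ≤ 1 + δ ∧ B s ω = B (s + h) ω) ∧
        B (1 - a) ω - B 1 ω < -(x * √(a : ℝ))}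

/-- no deep dip -/
def nod (B : ℝ≥0 → Ω → ℝ) (n : ℕ) (a : ℕ → ℝ≥0) (x : ℝ) : Set Ω :=
  {ω | ∀ k, k < n → -(x * √(a k : ℝ)) ≤ B (1 - a k) ω - B 1 ω}

lemma measurable_nod (hB : GBM B P) (n : ℕ) (a : ℕ → ℝ≥0) (x : ℝ) :
    MeasurableSet (nod B n a x) := by
  unfold nod
  simp only [ofPred_forall]
  refine MeasurableSet.iInter fun k => MeasurableSet.iInter fun _ => ?_
  exact measurableSet_le measurable_const ((hB.meas _).sub (hB.meas _))

/-- a new span belongs to one of the core events -/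
lemma cover (hB : GBM B P) {n : ℕ} {a : ℕ → ℝ≥0} {x : ℝ} {h r : ℝ≥0} (hr : 1 ≤ r) (hh : h ≤ 1)
    {ω : Ω} (hω : ω ∉ nod B n a x) (hω' : ω ∉ nod (-B) n a x)
    (h1 : (h:ℝ) ∈ Sp (fun t => B t ω) r) (h2 : (h:ℝ) ∉ Sp (fun t => B t ω) 1) :
    ω ∈ ⋃ k ∈ Finset.range n, (cev B h (r - 1) (a k) x ∪ cev (-B) h (r - 1) (a k) x) := by
  unfold nod at hω hω'
  simp only [mem_ofPred_eq, not_forall, not_le] at hω hω'
  obtain ⟨k, hk, hk1⟩ := hω
  obtain ⟨l, hl, hl1⟩ := hω'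
  obtain ⟨s, u, hsu, hur, hw, hhe⟩ := h1
  have hu : u = s + h := by
    apply NNReal.eq
    push_cast
    linarith
  subst hu
  have hr1 : 1 + (r - 1) = r := add_tsub_cancel_of_le hr
  rcases const_sign (hB.cont ω) hh h2 with hs | hs
  · refine mem_iUnion₂.2 ⟨k, Finset.mem_range.2 hk, Or.inl ⟨hs, ⟨s, by rw [hr1]; exact hur, hw⟩, hk1⟩⟩
  · refine mem_iUnion₂.2 ⟨l, Finset.mem_range.2 hl, Or.inr ⟨fun s hs' => ?_, ⟨s, by rw [hr1]; exact hur, ?_⟩, hl1⟩⟩
    · have := hs s hs'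
      simp only [Pi.neg_apply]
      linarith
    · have hw' : B s ω = B (s + h) ω := hw
      simp only [Pi.neg_apply, hw']

end

theorem key (h1 : S_CORE.{u}) (h2 : S_FIX.{u}) (h3 : S_MJOINT.{u}) (h4 : S_OSCL.{u})
    (h5 : S_RDET) : S_KEY.{u} := by
  intro Ω _ P B hB η θ hη hθ
  have hprob := hB.prob
  have hBn := hB.neg
  obtain ⟨ε, hε0, hε1, E, hE, hEs⟩ := exists_eps h3 h4 h5 hB (θ := ENNReal.ofReal (θ / 4))
    (ENNReal.ofReal_pos.2 (by linarith))
  obtain ⟨C, hC, hcore⟩ := h1 ε hε0 hε1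
  have hε0' : (0:ℝ) < ε := by exact_mod_cast hε0
  set θ' : ℝ := min (θ / 8) (η * θ / (8 * C)) with hθ'
  have hθ'0 : 0 < θ' := lt_min (by linarith) (by positivity)
  have hθ'1 : θ' ≤ θ / 8 := min_le_left _ _
  have hθ'2 : θ' * (8 * C) ≤ η * θ := by
    rw [← le_div_iff₀ (by positivity)]
    exact min_le_right _ _
  obtain ⟨x, n, a, hx, ha, hn, hfix⟩ := h2 (ε / 2) θ' (by linarith) (by linarith) hθ'0
  set S : ℝ := ∑ k ∈ Finset.range n, 1 / (a k : ℝ) with hS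
  have hS0 : 0 ≤ S := Finset.sum_nonneg fun k _ => by positivity
  set δ0 : ℝ := min (ε / 4) (η * θ / (8 * C * (S + 1))) with hδ0
  have hδ00 : 0 < δ0 := lt_min (by linarith) (by positivity)
  refine ⟨1 + δ0.toNNReal, by simpa using hδ00, fun r hr1 hr2 => ?_⟩
  set δ : ℝ≥0 := r - 1 with hδ
  have hδr : (δ:ℝ) = (r:ℝ) - 1 := by rw [hδ, NNReal.coe_sub hr1.le, NNReal.coe_one]
  have hr1' : (1:ℝ) < r := by exact_mod_cast hr1
  have hδpos : (0:ℝ) < δ := by rw [hδr]; linarith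
  have hδpos' : 0 < δ := by exact_mod_cast hδpos
  have hδlt : (δ:ℝ) ≤ δ0 := by
    have h6 : (r:ℝ) < ((1 + δ0.toNNReal : ℝ≥0) : ℝ) := by exact_mod_cast hr2
    rw [NNReal.coe_add, NNReal.coe_one, Real.coe_toNNReal _ hδ00.le] at h6
    rw [hδr]; linarith
  have hδ4 : (δ:ℝ) ≤ ε / 4 := hδlt.trans (min_le_left _ _)
  have hδS : (δ:ℝ) * (8 * C * (S + 1)) ≤ η * θ := by
    rw [← le_div_iff₀ (by positivity)]
    exact hδlt.trans (min_le_right _ _)
  -- the bad set of `FIX`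
  set G : Set Ω := nod B n a x ∪ nod (-B) n a x with hG
  have hGm : MeasurableSet G := (measurable_nod hB n a x).union (measurable_nod hBn n a x)
  have hGP : P G ≤ ENNReal.ofReal (θ / 4) := by
    calc P G ≤ P (nod B n a x) + P (nod (-B) n a x) := measure_union_le _ _
      _ ≤ ENNReal.ofReal θ' + ENNReal.ofReal θ' := add_le_add (hfix P B hB) (hfix P (-B) hBn)
      _ = ENNReal.ofReal (θ' + θ') := (ENNReal.ofReal_add hθ'0.le hθ'0.le).symm
      _ ≤ ENNReal.ofReal (θ / 4) := ENNReal.ofReal_le_ofReal (by linarith)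
  -- the joint set
  set Q : Set (ℝ × Ω) := {q : ℝ × Ω | (q.1 ∈ Icc (ε:ℝ) (1 - ε) ∧ q.2 ∉ G) ∧
    q.1 ∈ Sp (fun t => B t q.2) r ∧ q.1 ∉ Sp (fun t => B t q.2) 1} with hQ
  have hQm : MeasurableSet Q := by
    refine MeasurableSet.inter (MeasurableSet.inter ?_ ?_) (MeasurableSet.inter ?_ ?_)
    · exact measurable_fst measurableSet_Icc
    · exact measurable_snd hGm.compl
    · exact h3 B hB.meas hB.cont r
    · exact (h3 B hB.meas hB.cont 1).compl
  set K : ℝ := ∑ k ∈ Finset.range n, 2 * (C * (δ * Real.exp (-(3 / 4) * x ^ 2) + δ ^ 2 / a k)) with hK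
  have hK0 : 0 ≤ K := Finset.sum_nonneg fun k _ => by positivity
  have hQh : ∀ h : ℝ, P (Prod.mk h ⁻¹' Q) ≤ (Icc (0:ℝ) 1).indicator (fun _ => ENNReal.ofReal K) h := by
    intro h
    by_cases hh : h ∈ Icc (ε:ℝ) (1 - ε)
    · have hh0 : 0 ≤ h := hε0'.le.trans hh.1
      have hh1 : h ≤ 1 := by linarith [hh.2]
      rw [indicator_of_mem (show h ∈ Icc (0:ℝ) 1 from ⟨hh0, hh1⟩)]
      lift h to ℝ≥0 using hh0
      have hh1' : h ≤ 1 := by exact_mod_cast hh1
      have hεh : ε ≤ h := by exact_mod_cast hh.1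
      have hh1ε : h ≤ 1 - ε := by
        have hle1 : ε ≤ 1 := by
          have h8 : (ε : ℝ) ≤ 1 := by linarith
          exact_mod_cast h8
        rw [← NNReal.coe_le_coe, NNReal.coe_sub hle1, NNReal.coe_one]
        exact hh.2
      have hsub : Prod.mk (h:ℝ) ⁻¹' Q ⊆
          ⋃ k ∈ Finset.range n, (cev B h δ (a k) x ∪ cev (-B) h δ (a k) x) := by
        rintro ω ⟨⟨_, hωG⟩, hω1, hω2⟩
        exact cover hB hr1.le hh1' (fun hx => hωG (Or.inl hx)) (fun hx => hωG (Or.inr hx)) hω1 hω2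
      calc P (Prod.mk (h:ℝ) ⁻¹' Q) ≤
          P (⋃ k ∈ Finset.range n, (cev B h δ (a k) x ∪ cev (-B) h δ (a k) x)) :=
            measure_mono hsub
        _ ≤ ∑ k ∈ Finset.range n, P (cev B h δ (a k) x ∪ cev (-B) h δ (a k) x) :=
            measure_biUnion_finset_le _ _
        _ ≤ ∑ k ∈ Finset.range n,
            ENNReal.ofReal (2 * (C * (δ * Real.exp (-(3 / 4) * x ^ 2) + δ ^ 2 / a k))) := by
            refine Finset.sum_le_sum fun k hk => ?_
            have hk' := ha k (Finset.mem_range.1 hk)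
            have i1 := hcore P B hB h δ (a k) x hεh hh1ε hδpos' hδ4 hk'.1 hk'.2 hx
            have i2 := hcore P (-B) hBn h δ (a k) x hεh hh1ε hδpos' hδ4 hk'.1 hk'.2 hx
            rw [two_mul, ENNReal.ofReal_add (by positivity) (by positivity)]
            exact (measure_union_le _ _).trans (add_le_add i1 i2)
        _ = ENNReal.ofReal K := by
            rw [hK, ENNReal.ofReal_sum_of_nonneg fun k _ => by positivity]
    · have : Prod.mk h ⁻¹' Q = ∅ := by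
        ext ω
        simp only [mem_preimage, mem_empty_iff_false, iff_false]
        rintro ⟨⟨h6, _⟩, _⟩
        exact hh h6
      rw [this, measure_empty]
      exact zero_le
  -- Tonelli
  set f : Ω → ℝ≥0∞ := fun ω => volume ((fun h : ℝ => (h, ω)) ⁻¹' Q) with hf
  have hfm : Measurable f := measurable_measure_prodMk_right hQm
  have hint : ∫⁻ ω, f ω ∂P ≤ ENNReal.ofReal K := by
    calc ∫⁻ ω, f ω ∂P = ((volume : Measure ℝ).prod P) Q := (Measure.prod_apply_symm hQm).symm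
      _ = ∫⁻ h : ℝ, P (Prod.mk h ⁻¹' Q) := Measure.prod_apply hQm
      _ ≤ ∫⁻ h : ℝ, (Icc (0:ℝ) 1).indicator (fun _ => ENNReal.ofReal K) h := lintegral_mono hQh
      _ = ENNReal.ofReal K := by
          rw [lintegral_indicator_const measurableSet_Icc, Real.volume_Icc]
          simp
  have hηδ : 0 < η * δ := by positivity
  have hmark : P {ω | ENNReal.ofReal (η * δ) ≤ f ω} ≤ ENNReal.ofReal (θ / 2) := by
    refine (meas_ge_le_lintegral_div hfm.aemeasurable (ENNReal.ofReal_pos.2 hηδ).ne'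
      ENNReal.ofReal_ne_top).trans ?_
    refine (ENNReal.div_le_div_right hint _).trans ?_
    rw [← ENNReal.ofReal_div_of_pos hηδ]
    apply ENNReal.ofReal_le_ofReal
    rw [div_le_iff₀ hηδ]
    have hKe : K = 2 * C * δ * (n * Real.exp (-(3 / 4) * x ^ 2)) + 2 * C * δ * (δ * S) := by
      rw [hK, hS]
      simp only [Finset.mul_sum, mul_add, Finset.sum_add_distrib, Finset.sum_const,
        Finset.card_range, nsmul_eq_mul]
      congr 1
      · ring
      · refine Finset.sum_congr rfl fun k _ => ?_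
        ring
    rw [hKe]
    have i1 : 2 * C * δ * (n * Real.exp (-(3 / 4) * x ^ 2)) ≤ 2 * C * δ * θ' := by gcongr
    have i2 : 2 * C * δ * θ' ≤ θ / 4 * (η * δ) := by nlinarith
    have i3 : 2 * C * δ * (δ * S) ≤ θ / 4 * (η * δ) := by
      have : (δ:ℝ) * (8 * C * S) ≤ η * θ := by
        have h7 : (0:ℝ) ≤ δ * (8 * C) := by positivity
        nlinarith
      nlinarith
    linarith
  -- conclusion
  have hfin : {ω | η * ((r : ℝ) - 1) ≤ SS (fun t => B t ω) r - SS (fun t => B t ω) 1} ⊆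
      (E ∪ G) ∪ {ω | ENNReal.ofReal (η * δ) ≤ f ω} := by
    intro ω hω
    by_cases hωE : ω ∈ E
    · exact Or.inl (Or.inl hωE)
    by_cases hωG : ω ∈ G
    · exact Or.inl (Or.inr hωG)
    refine Or.inr ?_
    have hω' : η * ((r : ℝ) - 1) ≤ SS (fun t => B t ω) r - SS (fun t => B t ω) 1 := hω
    have hsub : Sp (fun t => B t ω) r ⊆
        Sp (fun t => B t ω) 1 ∪ ((fun h : ℝ => (h, ω)) ⁻¹' Q) := by
      intro h hh
      by_cases hh1 : h ∈ Sp (fun t => B t ω) 1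
      · exact Or.inl hh1
      · refine Or.inr ⟨⟨?_, hωG⟩, hh, hh1⟩
        refine hEs ω hωE r ?_ h hh hh1
        rw [← NNReal.coe_le_coe, NNReal.coe_add, NNReal.coe_one]
        linarith
    have hle : volume (Sp (fun t => B t ω) r) ≤ volume (Sp (fun t => B t ω) 1) + f ω :=
      (measure_mono hsub).trans (measure_union_le _ _)
    change ENNReal.ofReal (η * δ) ≤ f ω
    by_cases hftop : f ω = ∞
    · rw [hftop]; exact le_top
    have h1t := volume_Sp_ne_top (fun t => B t ω) 1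
    have h7 := ENNReal.toReal_mono (ENNReal.add_ne_top.2 ⟨h1t, hftop⟩) hle
    rw [ENNReal.toReal_add h1t hftop] at h7
    rw [ENNReal.ofReal_le_iff_le_toReal hftop]
    unfold SS at hω'
    rw [hδr]
    linarith
  calc P {ω | η * ((r : ℝ) - 1) ≤ SS (fun t => B t ω) r - SS (fun t => B t ω) 1}
      ≤ P ((E ∪ G) ∪ {ω | ENNReal.ofReal (η * δ) ≤ f ω}) := measure_mono hfin
    _ ≤ (P E + P G) + P {ω | ENNReal.ofReal (η * δ) ≤ f ω} :=
        (measure_union_le _ _).trans (add_le_add_left (measure_union_le _ _) _)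
    _ ≤ (ENNReal.ofReal (θ / 4) + ENNReal.ofReal (θ / 4)) + ENNReal.ofReal (θ / 2) :=
        add_le_add (add_le_add hE.le hGP) hmark
    _ = ENNReal.ofReal θ := by
        rw [← ENNReal.ofReal_add (by linarith) (by linarith),
          ← ENNReal.ofReal_add (by linarith) (by linarith)]
        congr 1
        ring

end R396.ATKEY
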